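import Pool.Agent.helper27.PC2.Stmt2
import Pool.Agent.helper93.PC.SD

/-!
# PC project, second half, module LT: comparison of the norms at `q = 1` and `q = -1`
-/

namespace Pool.Agent.helper27.PC

open Module Polynomial Finset

theorem LT_app_append (w : Lab → ℤ) (l l' : List ℕ) : ∀ u : St →₀ ℤ,
    app w (l ++ l') u = app w l' (app w l u) := by
  induction l with
  | nil => intro u; rfl
  | cons a l ih => intro u; exact ih _

theorem LT_app_replicate (w : Lab → ℤ) (a : ℕ) : ∀ (j : ℕ) (u : St →₀ ℤ),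
    app w (List.replicate j a) u = ((Rib w a) ^ j) u := by
  intro j
  induction j with
  | zero => intro u; rfl
  | succ j ih =>
    intro u
    rw [List.replicate_succ, pow_succ, Module.End.mul_apply, ← ih]
    rfl

theorem LT_gv (hLG : LG_stmt) (w : Lab → ℤ) (n : ℕ) : ∀ (l : List ℕ) (k : ℕ) (u : St →₀ ℤ),
    (∀ a ∈ l, 1 ≤ a) → GV n k u → GV n (k + l.sum) (app w l u) := by
  intro l
  induction l with
  | nil =>
    intro k u _ h
    rw [List.sum_nil, add_zero]
    exact h
  | cons a l ih =>
    intro k u hl hu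
    have h1 := (hLG ℤ w n k a u (hl a List.mem_cons_self) hu).1
    have h2 := ih (k + a) _ (fun x hx => hl x (List.mem_cons_of_mem _ hx)) h1
    rw [List.sum_cons, ← add_assoc]
    exact h2

theorem LT_gv0 (n : ℕ) : GV n 0 (Finsupp.single (vac n) (1 : ℤ)) := by
  intro S hS
  have := Finsupp.support_single_subset hS
  rw [Finset.mem_singleton] at this
  rw [this]
  exact SD_good_vac n

theorem LT_low_zero (c : ℕ) (u : St →₀ ℤ) : Low (fun _ => (0 : ℤ)) c u = 0 := by
  unfold Low
  rw [Finsupp.linearCombination_apply]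
  unfold Finsupp.sum
  apply Finset.sum_eq_zero
  intro S _
  simp

theorem LT_yt_low (hLB : LB_stmt) (hLG : LG_stmt) (n a : ℕ) (ha : 1 ≤ a) :
    ∀ (l : List ℕ) (k : ℕ) (u : St →₀ ℤ), (∀ b ∈ l, 1 ≤ b) → (∀ b ∈ l, b < a) → GV n k u →
    k + l.sum ≤ n → Low yt a u = 0 → Low yt a (app yt l u) = 0 := by
  intro l
  induction l with
  | nil => intro k u _ _ _ _ h; exact h
  | cons b l ih =>
    intro k u h1 h2 hu hk h0
    have hb1 := h1 b List.mem_cons_self
    have hb2 := h2 b List.mem_cons_self
    rw [List.sum_cons] at hk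
    have h3 := (hLB ℤ yt yt n k a b u ha hb1 hu (by omega)).2.2 hb2
    have h4 : (fun l => yt l * yt (up (a - b) l) - yt (dn b l) * yt (dn b l)) = fun _ => (0 : ℤ) := by
      funext x
      obtain ⟨c, p⟩ := x
      cases c <;> simp [yt, up, dn]
    rw [h4, LT_low_zero, h0, map_zero, sub_zero] at h3
    exact ih (k + b) _ (fun x hx => h1 x (List.mem_cons_of_mem _ hx))
      (fun x hx => h2 x (List.mem_cons_of_mem _ hx)) (hLG ℤ yt n k b u hb1 hu).1 (by omega) h3

theorem LT_nrm_nonneg (u : St →₀ ℤ) : 0 ≤ nrm u := by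
  unfold nrm Finsupp.sum
  exact Finset.sum_nonneg fun S _ => sq_nonneg _

theorem LT_nrm_pos {u : St →₀ ℤ} (h : u ≠ 0) : 0 < nrm u := by
  unfold nrm Finsupp.sum
  apply Finset.sum_pos
  · intro S hS
    have := Finsupp.mem_support_iff.1 hS
    positivity
  · exact Finsupp.support_nonempty_iff.2 h

theorem LT_nrm_zero : nrm (0 : St →₀ ℤ) = 0 := by
  unfold nrm
  exact Finsupp.sum_zero_index

theorem LT_xt_sq (t : Bool) (l : Lab) : xt t l * xt t l = 1 := by
  unfold xt
  have h1 : ((-1 : ℤ) ^ l.2) * ((-1 : ℤ) ^ l.2) = 1 := by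
    rw [← mul_pow]; simp
  split_ifs
  · linear_combination h1
  · linear_combination h1

theorem LT_yt_sq (l : Lab) : yt l * yt l = 1 := by
  unfold yt
  split_ifs <;> norm_num

/-- the factor of one group of equal parts -/
def LT_c (j a : ℕ) : ℤ := ((j.factorial * (2 * a) ^ j : ℕ) : ℤ)

theorem LT_c_pos {j a : ℕ} (ha : 1 ≤ a) : 0 < LT_c j a := by
  unfold LT_c
  have : 0 < j.factorial * (2 * a) ^ j := by
    have := j.factorial_pos
    positivity
  exact_mod_cast this

theorem LT_step_y (hDL : DL_stmt) (hLB : LB_stmt) (hLG : LG_stmt) (n a j : ℕ) (ha : 1 ≤ a)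
    (l : List ℕ) (h1 : ∀ b ∈ l, 1 ≤ b) (h2 : ∀ b ∈ l, b < a) (hn : l.sum + j * a ≤ n) :
    nrm (app yt (l ++ List.replicate j a) (Finsupp.single (vac n) 1)) =
      LT_c j a * nrm (app yt l (Finsupp.single (vac n) 1)) := by
  have hgv := LT_gv hLG yt n l 0 _ h1 (LT_gv0 n)
  rw [zero_add] at hgv
  have hz : Low yt a (Finsupp.single (vac n) (1 : ℤ)) = 0 :=
    (hLG ℤ yt n 0 a _ ha (LT_gv0 n)).2.2 (by omega)
  have hlow := LT_yt_low hLB hLG n a ha l 0 _ h1 h2 (LT_gv0 n) (by omega) hz
  rw [LT_app_append, LT_app_replicate, hDL ℤ yt LT_yt_sq n l.sum a j _ ha hgv hn,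
    Finset.sum_eq_single 0]
  · unfold LT_c
    simp
  · intro i _ hi
    obtain ⟨i', rfl⟩ := Nat.exists_eq_succ_of_ne_zero hi
    have h5 : ((Low yt a) ^ (i' + 1)) (app yt l (Finsupp.single (vac n) 1)) = 0 := by
      rw [pow_succ, Module.End.mul_apply, hlow, map_zero]
    rw [Nat.succ_eq_add_one, h5, LT_nrm_zero, mul_zero]
  · intro h
    exact absurd (Finset.mem_range.2 (Nat.succ_pos j)) h

theorem LT_step_x (hDL : DL_stmt) (hLG : LG_stmt) (t : Bool) (n a j : ℕ) (ha : 1 ≤ a)
    (l : List ℕ) (h1 : ∀ b ∈ l, 1 ≤ b) (hn : l.sum + j * a ≤ n) :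
    LT_c j a * nrm (app (xt t) l (Finsupp.single (vac n) 1)) ≤
      nrm (app (xt t) (l ++ List.replicate j a) (Finsupp.single (vac n) 1)) ∧
    (1 ≤ j → Low (xt t) a (app (xt t) l (Finsupp.single (vac n) 1)) ≠ 0 →
      LT_c j a * nrm (app (xt t) l (Finsupp.single (vac n) 1)) <
      nrm (app (xt t) (l ++ List.replicate j a) (Finsupp.single (vac n) 1))) := by
  have hgv := LT_gv hLG (xt t) n l 0 _ h1 (LT_gv0 n)
  rw [zero_add] at hgv
  rw [LT_app_append, LT_app_replicate, hDL ℤ (xt t) (LT_xt_sq t) n l.sum a j _ ha hgv hn,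
    Finset.sum_range_succ']
  have e0 : (((j.choose 0) ^ 2 * (j - 0).factorial * (2 * a) ^ (j - 0) : ℕ) : ℤ) *
      nrm (((Low (xt t) a) ^ 0) (app (xt t) l (Finsupp.single (vac n) 1))) =
      LT_c j a * nrm (app (xt t) l (Finsupp.single (vac n) 1)) := by
    unfold LT_c
    simp
  rw [e0]
  have hnn : ∀ i ∈ Finset.range j, (0 : ℤ) ≤
      (((j.choose (i + 1)) ^ 2 * (j - (i + 1)).factorial * (2 * a) ^ (j - (i + 1)) : ℕ) : ℤ) *
      nrm (((Low (xt t) a) ^ (i + 1)) (app (xt t) l (Finsupp.single (vac n) 1))) := by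
    intro i _
    exact mul_nonneg (Int.natCast_nonneg _) (LT_nrm_nonneg _)
  constructor
  · have := Finset.sum_nonneg hnn
    linarith
  · intro hj hne
    have : (0 : ℤ) < ∑ i ∈ Finset.range j,
      (((j.choose (i + 1)) ^ 2 * (j - (i + 1)).factorial * (2 * a) ^ (j - (i + 1)) : ℕ) : ℤ) *
      nrm (((Low (xt t) a) ^ (i + 1)) (app (xt t) l (Finsupp.single (vac n) 1))) := by
      apply Finset.sum_pos' hnn
      refine ⟨0, Finset.mem_range.2 (by omega), ?_⟩
      apply mul_pos
      · have h3 : 0 < (j.choose (0 + 1)) ^ 2 * (j - (0 + 1)).factorial * (2 * a) ^ (j - (0 + 1)) := by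
          have h4 : 0 < j.choose (0 + 1) := Nat.choose_pos (by omega)
          have h5 := (j - (0 + 1)).factorial_pos
          positivity
        exact_mod_cast h3
      · rw [zero_add, pow_one]
        exact LT_nrm_pos hne
    linarith

theorem LT_grow (hDL : DL_stmt) (hLB : LB_stmt) (hLG : LG_stmt) (t : Bool) (n : ℕ) (l₁ : List ℕ)
    (h₁ : ∀ a ∈ l₁, 1 ≤ a) : ∀ (N : ℕ) (l : List ℕ), l.length = N → (∀ a ∈ l, 1 ≤ a) →
    l.Pairwise (· ≤ ·) → (∀ c ∈ l, ∀ x ∈ l₁, x < c) → (l₁ ++ l).sum ≤ n →
    ∃ C : ℤ, 0 < C ∧ C * (nrm (app (xt t) l₁ (Finsupp.single (vac n) 1)) -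
        nrm (app yt l₁ (Finsupp.single (vac n) 1))) ≤
      nrm (app (xt t) (l₁ ++ l) (Finsupp.single (vac n) 1)) -
        nrm (app yt (l₁ ++ l) (Finsupp.single (vac n) 1)) := by
  intro N
  induction N using Nat.strong_induction_on with
  | _ N ih =>
    intro l hN h1 hs hlt hn
    rcases Nat.eq_zero_or_pos N with h0 | h0
    · rw [h0] at hN
      rw [List.length_eq_zero_iff.1 hN, List.append_nil]
      exact ⟨1, one_pos, by rw [one_mul]⟩
    · have hne : l.toFinset.Nonempty := by
        rw [List.toFinset_nonempty_iff]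
        intro h
        rw [h] at hN
        simp at hN
        omega
      obtain ⟨a, hal, hmax⟩ := Finset.exists_max_image l.toFinset id hne
      rw [List.mem_toFinset] at hal
      have hmax' : ∀ x ∈ l, x ≤ a := fun x hx => hmax x (List.mem_toFinset.2 hx)
      have h2 := SD_split l hs a hmax'
      set R := l.filter (· < a) with hR
      set j := l.count a with hj
      have hj0 : 0 < j := List.count_pos_iff.2 hal
      have hRl : R.length < N := by
        rw [← hN]
        conv_rhs => rw [h2]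
        rw [List.length_append, List.length_replicate]
        omega
      have hsub : ∀ x ∈ R, x ∈ l ∧ x < a := by
        intro x hx
        rw [hR, List.mem_filter] at hx
        exact ⟨hx.1, by simpa using hx.2⟩
      have hsum : (l₁ ++ l).sum = (l₁ ++ R).sum + j * a := by
        conv_lhs => rw [h2]
        rw [List.sum_append, List.sum_append, List.sum_append, List.sum_replicate, smul_eq_mul]
        ring
      rw [hsum] at hn
      obtain ⟨C, hC, hC2⟩ := ih R.length hRl R rfl (fun x hx => h1 x (hsub x hx).1)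
        (hs.sublist List.filter_sublist) (fun c hc => hlt c (hsub c hc).1) (by omega)
      have ha := h1 a hal
      have h3 : ∀ b ∈ l₁ ++ R, 1 ≤ b := by
        intro b hb
        rcases List.mem_append.1 hb with h | h
        · exact h₁ b h
        · exact h1 b (hsub b h).1
      have h4 : ∀ b ∈ l₁ ++ R, b < a := by
        intro b hb
        rcases List.mem_append.1 hb with h | h
        · exact hlt a hal b h
        · exact (hsub b h).2
      have hy := LT_step_y hDL hLB hLG n a j ha (l₁ ++ R) h3 h4 hn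
      have hx := (LT_step_x hDL hLG t n a j ha (l₁ ++ R) h3 hn).1
      have e : l₁ ++ l = (l₁ ++ R) ++ List.replicate j a := by
        rw [List.append_assoc, ← h2]
      rw [e]
      have hc := LT_c_pos (j := j) ha
      refine ⟨LT_c j a * C, mul_pos hc hC, ?_⟩
      rw [hy]
      have := mul_le_mul_of_nonneg_left hC2 hc.le
      nlinarith [this, hx]

theorem LT (hDL : DL_stmt) (hLB : LB_stmt) (hLG : LG_stmt) (hNZ : NZ_stmt) : LT_stmt := by
  intro t n l h1 hs hn
  have hle : ∀ l : List ℕ, (∀ a ∈ l, 1 ≤ a) → l.Pairwise (· ≤ ·) → l.sum ≤ n →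
      nrm (app yt l (Finsupp.single (vac n) 1)) ≤ nrm (app (xt t) l (Finsupp.single (vac n) 1)) := by
    intro l h1 hs hn
    obtain ⟨C, _, hC⟩ := LT_grow hDL hLB hLG t n [] (by simp) l.length l rfl h1 hs (by simp)
      (by simpa using hn)
    have e : nrm (app (xt t) [] (Finsupp.single (vac n) (1 : ℤ))) -
        nrm (app yt [] (Finsupp.single (vac n) (1 : ℤ))) = 0 := sub_self _
    rw [e, mul_zero, List.nil_append] at hC
    linarith
  refine ⟨hle l h1 hs hn, ?_⟩
  rintro ⟨b, a, k, j, l', rfl, hba, hl', hodd, hk⟩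
  have hk0 : 0 < k := by
    rcases Nat.eq_zero_or_pos k with h | h
    · subst h
      split_ifs at hk <;> omega
    · exact h
  have hmb : b ∈ List.replicate k b ++ List.replicate (j + 1) a ++ l' := by
    rw [List.mem_append, List.mem_append]
    exact Or.inl (Or.inl (List.mem_replicate.2 ⟨by omega, rfl⟩))
  have hb : 1 ≤ b := h1 b hmb
  have hsum : (List.replicate k b ++ List.replicate (j + 1) a ++ l').sum =
      k * b + (j + 1) * a + l'.sum := by
    rw [List.sum_append, List.sum_append, List.sum_replicate, List.sum_replicate, smul_eq_mul,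
      smul_eq_mul]
  have hsr : (List.replicate k b).sum = k * b := by
    rw [List.sum_replicate, smul_eq_mul]
  have hnz := hNZ t n b a k hb hba hodd hk (by omega)
  have hrep1 : ∀ x ∈ List.replicate k b, 1 ≤ x := by
    intro x hx
    rw [(List.mem_replicate.1 hx).2]; exact hb
  have hrep2 : ∀ x ∈ List.replicate k b, x < a := by
    intro x hx
    rw [(List.mem_replicate.1 hx).2]; exact hba
  have hb0 := hle (List.replicate k b) hrep1 (List.pairwise_replicate.2 (Or.inr le_rfl)) (by omega)
  have hx := (LT_step_x hDL hLG t n a (j + 1) (by omega) (List.replicate k b) hrep1 (by omega)).2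
    (by omega) hnz
  have hy := LT_step_y hDL hLB hLG n a (j + 1) (by omega) (List.replicate k b) hrep1 hrep2
    (by omega)
  have hc := LT_c_pos (j := j + 1) (a := a) (by omega)
  have hD : nrm (app yt (List.replicate k b ++ List.replicate (j + 1) a) (Finsupp.single (vac n) 1)) <
      nrm (app (xt t) (List.replicate k b ++ List.replicate (j + 1) a)
        (Finsupp.single (vac n) 1)) := by
    rw [hy]
    have := mul_le_mul_of_nonneg_left hb0 hc.le
    linarith
  obtain ⟨C, hC0, hC⟩ := LT_grow hDL hLB hLG t n (List.replicate k b ++ List.replicate (j + 1) a)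
    (by
      intro x hx
      exact h1 x (List.mem_append_left _ hx)) l'.length l' rfl
    (fun x hx => h1 x (List.mem_append_right _ hx))
    (hs.sublist (List.sublist_append_right _ _))
    (by
      intro c hc x hx
      have h3 := hl' c hc
      rcases List.mem_append.1 hx with h | h
      · rw [(List.mem_replicate.1 h).2]; omega
      · rw [(List.mem_replicate.1 h).2]; omega) hn
  have := mul_pos hC0 (sub_pos.2 hD)
  linarith

end Pool.Agent.helper27.PC
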